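import Mathlib

namespace Pool.Agent.Results.MP_007251_co.MosCographs

/-- `G` is a cograph: it has no induced path on four vertices. -/
def IsCograph {V : Type} (G : SimpleGraph V) : Prop :=
  IsEmpty (SimpleGraph.pathGraph 4 ↪g G)

/-- `S` induces an odd subgraph of `G`: every vertex of `S` has an odd number of neighbours in `S`. -/
def IsOddSet {V : Type} (G : SimpleGraph V) (S : Set V) : Prop :=
  ∀ v ∈ S, Odd {u | u ∈ S ∧ G.Adj v u}.ncard

/-- `mos G` is the largest number of vertices of an odd induced subgraph of `G`. -/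
noncomputable def mos {V : Type} (G : SimpleGraph V) : ℕ :=
  sSup {k | ∃ S : Set V, IsOddSet G S ∧ S.ncard = k}

/-- `m n` is the smallest value of `mos G` over all cographs `G` on `n` vertices without isolated
vertices. -/
noncomputable def m (n : ℕ) : ℕ :=
  sInf {k | ∃ G : SimpleGraph (Fin n), IsCograph G ∧ (∀ v, ∃ u, G.Adj v u) ∧ mos G = k}

section Parity

variable {V : Type} [DecidableEq V]

theorem symm_sum (g : V → V → ZMod 2) (hs : ∀ u v, g u v = g v u) (hd : ∀ u, g u u = 0)
    (S : Finset V) : ∑ u ∈ S, ∑ v ∈ S, g u v = 0 := by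
  induction S using Finset.induction_on with
  | empty => simp
  | insert a S ha ih =>
    rw [Finset.sum_insert ha, Finset.sum_insert ha, hd, zero_add]
    have : ∀ u ∈ S, ∑ v ∈ insert a S, g u v = g a u + ∑ v ∈ S, g u v := by
      intro u _
      rw [Finset.sum_insert ha, hs u a]
    rw [Finset.sum_congr rfl this, Finset.sum_add_distrib, ih, add_zero]
    exact CharTwo.add_self_eq_zero _

/-- Gallai -/
theorem gallai_lin [Fintype V] (g : V → V → ZMod 2) (hs : ∀ u v, g u v = g v u)
    (hd : ∀ u, g u u = 0) :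
    ∃ x : V → ZMod 2, ∀ u, ∑ v, g u v * x v + (∑ v, g u v + 1) * x u = ∑ v, g u v := by
  let M : (V → ZMod 2) →ₗ[ZMod 2] (V → ZMod 2) :=
    { toFun := fun x u => ∑ v, g u v * x v + (∑ v, g u v + 1) * x u
      map_add' := by
        intro x y
        funext u
        simp only [Pi.add_apply, mul_add, Finset.sum_add_distrib]
        ring
      map_smul' := by
        intro c x
        funext u
        simp only [Pi.smul_apply, smul_eq_mul, RingHom.id_apply, mul_add, Finset.mul_sum]
        congr 1
        · exact Finset.sum_congr rfl fun v _ => by ring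
        · ring }
  by_contra hcon
  have hmem : (fun u => ∑ v, g u v) ∉ LinearMap.range M := by
    rintro ⟨x, hx⟩
    exact hcon ⟨x, fun u => congrFun hx u⟩
  obtain ⟨f, hf1, hf2⟩ := Submodule.exists_le_ker_of_notMem hmem
  set y : V → ZMod 2 := fun i => f (Pi.single i 1) with hy
  have hf : ∀ z : V → ZMod 2, f z = ∑ i, y i * z i := by
    intro z
    conv_lhs => rw [← Finset.univ_sum_single z]
    rw [map_sum]
    refine Finset.sum_congr rfl fun i _ => ?_
    have : (Pi.single i (z i) : V → ZMod 2) = z i • Pi.single i 1 := by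
      rw [← Pi.single_smul]; simp
    rw [this, map_smul, smul_eq_mul, hy]; ring
  have hker : ∀ x, ∑ i, y i * M x i = 0 := by
    intro x
    rw [← hf]
    exact hf2 ⟨x, rfl⟩
  apply hf1
  rw [hf]
  have h1 := hker (fun _ => 1)
  have h2 := hker y
  have e1 : ∑ i, y i * M (fun _ => 1) i = ∑ i, y i := by
    refine Finset.sum_congr rfl fun i _ => ?_
    show y i * (∑ v, g i v * 1 + (∑ v, g i v + 1) * 1) = y i
    simp only [mul_one]
    rw [← add_assoc, CharTwo.add_self_eq_zero, zero_add, mul_one]
  have e2 : ∑ i, y i * M y i = ∑ i, y i * ∑ v, g i v + ∑ i, y i := by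
    have : ∀ i, y i * M y i = ∑ v, y i * g i v * y v + (y i * ∑ v, g i v + y i) := by
      intro i
      show y i * (∑ v, g i v * y v + (∑ v, g i v + 1) * y i) = _
      have hyy : y i * y i = y i := by
        generalize y i = t
        revert t; decide
      rw [mul_add, Finset.mul_sum]
      congr 1
      · exact Finset.sum_congr rfl fun v _ => by ring
      · calc y i * ((∑ v, g i v + 1) * y i) = (∑ v, g i v + 1) * (y i * y i) := by ring
          _ = _ := by rw [hyy]; ring
    rw [Finset.sum_congr rfl fun i _ => this i, Finset.sum_add_distrib, Finset.sum_add_distrib,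
      symm_sum (fun i v => y i * g i v * y v) (fun u v => by rw [hs u v]; ring)
        (fun u => by rw [hd]; ring) Finset.univ, zero_add]
  rw [e1] at h1
  rw [e2, h1, add_zero] at h2
  exact h2

end Parity

section Graph

variable {V : Type} [Fintype V] [DecidableEq V] (G : SimpleGraph V) [DecidableRel G.Adj]

/-- number of neighbours in `S` -/
def dg (S : Finset V) (v : V) : ℕ := (S.filter (G.Adj v)).card

omit [Fintype V] [DecidableEq V] in
theorem dg_cast (S : Finset V) (v : V) :
    (dg G S v : ZMod 2) = ∑ u ∈ S, if G.Adj v u then (1 : ZMod 2) else 0 := by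
  unfold dg
  rw [Finset.card_filter]
  push_cast
  rfl

omit [Fintype V] in
theorem even_of_odd (S : Finset V) (h : ∀ v ∈ S, Odd (dg G S v)) : Even S.card := by
  rw [← ZMod.natCast_eq_zero_iff_even]
  have h1 : ∑ v ∈ S, (dg G S v : ZMod 2) = 0 := by
    simp only [dg_cast]
    refine symm_sum (fun v u => if G.Adj v u then (1 : ZMod 2) else 0) ?_ ?_ S
    · intro u v
      simp only [G.adj_comm u v]
    · intro u
      simp
  have h2 : ∑ v ∈ S, (dg G S v : ZMod 2) = ∑ v ∈ S, 1 :=
    Finset.sum_congr rfl fun v hv => (ZMod.natCast_eq_one_iff_odd).2 (h v hv)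
  rw [h2] at h1
  simpa using h1

/-- Gallai: partition of `U` into a set inducing an odd subgraph and one inducing an even one -/
theorem gallai (U : Finset V) : ∃ O ⊆ U, (∀ v ∈ O, Odd (dg G O v)) ∧
    ∀ v ∈ U \ O, Even (dg G (U \ O) v) := by
  obtain ⟨x, hx⟩ := gallai_lin (fun u v => if u ∈ U ∧ v ∈ U ∧ G.Adj u v then (1 : ZMod 2) else 0)
    (fun u v => by
      have : (u ∈ U ∧ v ∈ U ∧ G.Adj u v) ↔ (v ∈ U ∧ u ∈ U ∧ G.Adj v u) := by
        rw [G.adj_comm u v]; tauto
      simp only [this]) (fun u => by simp)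
  have hx01 : ∀ u, x u = 0 ∨ x u = 1 := fun u => by
    generalize x u = t
    revert t; decide
  refine ⟨U.filter (fun u => x u = 1), Finset.filter_subset _ _, ?_, ?_⟩
  · intro v hv
    obtain ⟨hvU, hv1⟩ := Finset.mem_filter.1 hv
    have h := hx v
    rw [hv1, mul_one] at h
    rw [← ZMod.natCast_eq_one_iff_odd, dg_cast, Finset.sum_filter]
    have e : ∑ u ∈ U, (if x u = 1 then (if G.Adj v u then (1 : ZMod 2) else 0) else 0) =
        ∑ u, (if v ∈ U ∧ u ∈ U ∧ G.Adj v u then (1 : ZMod 2) else 0) * x u := by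
      rw [← Finset.sum_filter_add_sum_filter_not Finset.univ (fun u => u ∈ U)]
      rw [Finset.sum_eq_zero (s := Finset.univ.filter (fun u => ¬ u ∈ U))]
      · rw [add_zero]
        have : Finset.univ.filter (fun u => u ∈ U) = U := by ext; simp
        rw [this]
        refine Finset.sum_congr rfl fun u hu => ?_
        rcases hx01 u with h0 | h0 <;> simp [h0, hu, hvU]
      · intro u hu
        have : u ∉ U := (Finset.mem_filter.1 hu).2
        simp [this]
    rw [e]
    generalize (∑ u, (if v ∈ U ∧ u ∈ U ∧ G.Adj v u then (1 : ZMod 2) else 0) * x u) = a at *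
    generalize (∑ u, if v ∈ U ∧ u ∈ U ∧ G.Adj v u then (1 : ZMod 2) else 0) = b at *
    clear e
    revert h
    revert a b
    decide
  · intro v hv
    obtain ⟨hvU, hv1⟩ := Finset.mem_sdiff.1 hv
    have hv0 : x v = 0 := by
      rcases hx01 v with h0 | h0
      · exact h0
      · exact absurd (Finset.mem_filter.2 ⟨hvU, h0⟩) hv1
    have h := hx v
    rw [hv0, mul_zero, add_zero] at h
    rw [← ZMod.natCast_eq_zero_iff_even, dg_cast]
    have hS : U \ U.filter (fun u => x u = 1) = U.filter (fun u => x u = 0) := by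
      ext u
      simp only [Finset.mem_sdiff, Finset.mem_filter]
      constructor
      · rintro ⟨h1, h2⟩
        rcases hx01 u with h0 | h0
        · exact ⟨h1, h0⟩
        · exact absurd ⟨h1, h0⟩ h2
      · rintro ⟨h1, h2⟩
        refine ⟨h1, ?_⟩
        rintro ⟨-, h3⟩
        rw [h2] at h3
        exact absurd h3 (by decide)
    rw [hS, Finset.sum_filter]
    have e : ∑ u ∈ U, (if x u = 0 then (if G.Adj v u then (1 : ZMod 2) else 0) else 0) =
        ∑ u, (if v ∈ U ∧ u ∈ U ∧ G.Adj v u then (1 : ZMod 2) else 0) * (x u + 1) := by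
      rw [← Finset.sum_filter_add_sum_filter_not Finset.univ (fun u => u ∈ U)]
      rw [Finset.sum_eq_zero (s := Finset.univ.filter (fun u => ¬ u ∈ U))]
      · rw [add_zero]
        have : Finset.univ.filter (fun u => u ∈ U) = U := by ext; simp
        rw [this]
        refine Finset.sum_congr rfl fun u hu => ?_
        rcases hx01 u with h0 | h0
        · simp [h0, hu, hvU]
        · have : (1 : ZMod 2) + 1 = 0 := by decide
          simp [h0, this]
      · intro u hu
        have : u ∉ U := (Finset.mem_filter.1 hu).2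
        simp [this]
    rw [e]
    simp only [mul_add, mul_one, Finset.sum_add_distrib]
    rw [h]
    exact CharTwo.add_self_eq_zero _

/-- the join lemma -/
theorem join_case {A B : Finset V} (hA : A.Nonempty) (hB : B.Nonempty) (hAB : Disjoint A B)
    (hadj : ∀ a ∈ A, ∀ b ∈ B, G.Adj a b) :
    ∃ S ⊆ A ∪ B, (∀ v ∈ S, Odd (dg G S v)) ∧ (A ∪ B).card ≤ 3 * S.card := by
  have hodd : ∀ A : Finset V, A.Nonempty → ∃ A' ⊆ A, Odd A'.card ∧ A.card ≤ A'.card + 1 := by
    intro A hA
    rcases Nat.even_or_odd A.card with he | ho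
    · obtain ⟨a, ha⟩ := hA
      refine ⟨A.erase a, Finset.erase_subset _ _, ?_, ?_⟩
      · rw [Finset.card_erase_of_mem ha]
        exact Nat.Even.sub_odd (Finset.card_pos.2 ⟨a, ha⟩) he odd_one
      · rw [Finset.card_erase_of_mem ha]; omega
    · exact ⟨A, subset_rfl, ho, by omega⟩
  obtain ⟨A', hA'A, hA'o, hA'c⟩ := hodd A hA
  obtain ⟨B', hB'B, hB'o, hB'c⟩ := hodd B hB
  obtain ⟨P, hPA, hPo, hPe⟩ := gallai G A'
  obtain ⟨Q, hQB, hQo, hQe⟩ := gallai G B'
  have hdis : Disjoint A' B' := Finset.disjoint_of_subset_left hA'A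
    (Finset.disjoint_of_subset_right hB'B hAB)
  have hPev := even_of_odd G P hPo
  have hQev := even_of_odd G Q hQo
  have hcP : (A' \ P).card = A'.card - P.card := Finset.card_sdiff_of_subset hPA
  have hcQ : (B' \ Q).card = B'.card - Q.card := Finset.card_sdiff_of_subset hQB
  have hPle : P.card ≤ A'.card := Finset.card_le_card hPA
  have hQle : Q.card ≤ B'.card := Finset.card_le_card hQB
  have hPc : Odd (A' \ P).card := by rw [hcP]; exact Nat.Odd.sub_even hPle hA'o hPev
  have hQc : Odd (B' \ Q).card := by rw [hcQ]; exact Nat.Odd.sub_even hQle hB'o hQev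
  have hdg : ∀ X Y : Finset V, Disjoint X Y → (∀ x ∈ X, ∀ y ∈ Y, G.Adj x y) → ∀ v ∈ X,
      dg G (X ∪ Y) v = dg G X v + Y.card := by
    intro X Y hXY hj v hv
    unfold dg
    rw [Finset.filter_union, Finset.card_union_of_disjoint
      (Finset.disjoint_filter_filter hXY)]
    congr 2
    exact Finset.filter_true_of_mem fun y hy => hj v hv y hy
  have hsub : ∀ X Y : Finset V, X ⊆ A' → Y ⊆ B' → Disjoint X Y ∧ (∀ x ∈ X, ∀ y ∈ Y, G.Adj x y) ∧
      X ∪ Y ⊆ A ∪ B := by
    intro X Y hX hY
    exact ⟨Finset.disjoint_of_subset_left hX (Finset.disjoint_of_subset_right hY hdis),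
      fun x hx y hy => hadj x (hA'A (hX hx)) y (hB'B (hY hy)),
      Finset.union_subset_union (hX.trans hA'A) (hY.trans hB'B)⟩
  have key : ∀ X Y : Finset V, X ⊆ A' → Y ⊆ B' →
      (∀ v ∈ X, Odd (dg G X v + Y.card)) → (∀ v ∈ Y, Odd (dg G Y v + X.card)) →
      ∀ v ∈ X ∪ Y, Odd (dg G (X ∪ Y) v) := by
    intro X Y hX hY h1 h2 v hv
    obtain ⟨d1, d2, d3⟩ := hsub X Y hX hY
    rcases Finset.mem_union.1 hv with hv | hv
    · rw [hdg X Y d1 d2 v hv]; exact h1 v hv
    · rw [Finset.union_comm, hdg Y X d1.symm (fun y hy x hx => (d2 x hx y hy).symm) v hv]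
      exact h2 v hv
  have k1 := key P Q hPA hQB (fun v hv => (hPo v hv).add_even hQev)
    (fun v hv => (hQo v hv).add_even hPev)
  have k2 := key (A' \ P) (B' \ Q) Finset.sdiff_subset Finset.sdiff_subset
    (fun v hv => (hPe v hv).add_odd hQc) (fun v hv => (hQe v hv).add_odd hPc)
  have c1 : (P ∪ Q).card = P.card + Q.card :=
    Finset.card_union_of_disjoint (hsub P Q hPA hQB).1
  have c2 : ((A' \ P) ∪ (B' \ Q)).card = (A' \ P).card + (B' \ Q).card :=
    Finset.card_union_of_disjoint (hsub _ _ Finset.sdiff_subset Finset.sdiff_subset).1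
  have c3 : (A ∪ B).card = A.card + B.card := Finset.card_union_of_disjoint hAB
  have p1 := hPc.pos
  have p2 := hQc.pos
  rcases le_total ((A' \ P) ∪ (B' \ Q)).card (P ∪ Q).card with hle | hle
  · exact ⟨P ∪ Q, (hsub P Q hPA hQB).2.2, k1, by omega⟩
  · exact ⟨(A' \ P) ∪ (B' \ Q), (hsub _ _ Finset.sdiff_subset Finset.sdiff_subset).2.2, k2, by omega⟩

/-- structure of cographs -/
theorem split (hP : ∀ a b c d, G.Adj a b → G.Adj b c → G.Adj c d → ¬ G.Adj a c → ¬ G.Adj b d →
    ¬ G.Adj a d → False) (n : ℕ) : ∀ U : Finset V, U.card = n → 2 ≤ n →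
    ∃ A B : Finset V, A.Nonempty ∧ B.Nonempty ∧ Disjoint A B ∧ A ∪ B = U ∧
      ((∀ a ∈ A, ∀ b ∈ B, G.Adj a b) ∨ ∀ a ∈ A, ∀ b ∈ B, ¬ G.Adj a b) := by
  induction n with
  | zero => intro U _ h; omega
  | succ n ih =>
    intro U hU hn
    obtain ⟨v, hv⟩ : U.Nonempty := Finset.card_pos.1 (by omega)
    have hU' : (U.erase v).card = n := by rw [Finset.card_erase_of_mem hv, hU]; rfl
    have hins : insert v (U.erase v) = U := Finset.insert_erase hv
    -- generic way to finish
    have fin : ∀ A : Finset V, A ⊆ U → A.Nonempty → (∃ b ∈ U, b ∉ A) →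
        ((∀ a ∈ A, ∀ b ∈ U, b ∉ A → G.Adj a b) ∨ ∀ a ∈ A, ∀ b ∈ U, b ∉ A → ¬ G.Adj a b) →
        ∃ A B : Finset V, A.Nonempty ∧ B.Nonempty ∧ Disjoint A B ∧ A ∪ B = U ∧
      ((∀ a ∈ A, ∀ b ∈ B, G.Adj a b) ∨ ∀ a ∈ A, ∀ b ∈ B, ¬ G.Adj a b) := by
      rintro A hAU hA ⟨b, hbU, hbA⟩ h
      refine ⟨A, U \ A, hA, ⟨b, Finset.mem_sdiff.2 ⟨hbU, hbA⟩⟩, Finset.disjoint_sdiff,
        Finset.union_sdiff_of_subset hAU, ?_⟩
      rcases h with h | h
      · left; intro a ha b hb; exact h a ha b (Finset.mem_sdiff.1 hb).1 (Finset.mem_sdiff.1 hb).2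
      · right; intro a ha b hb; exact h a ha b (Finset.mem_sdiff.1 hb).1 (Finset.mem_sdiff.1 hb).2
    by_cases hn2 : n = 1
    · obtain ⟨u, hu⟩ := Finset.card_eq_one.1 (hU'.trans hn2)
      have huU : u ∈ U := by
        have : u ∈ U.erase v := by rw [hu]; simp
        exact Finset.mem_of_mem_erase this
      have huv : u ≠ v := by
        have : u ∈ U.erase v := by rw [hu]; simp
        exact Finset.ne_of_mem_erase this
      have hall : ∀ b ∈ U, b ∉ ({v} : Finset V) → b = u := by
        intro b hb hbv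
        have : b ∈ U.erase v := Finset.mem_erase.2 ⟨by simpa using hbv, hb⟩
        rw [hu] at this
        simpa using this
      refine fin {v} (by simpa using hv) (by simp) ⟨u, huU, by simpa using huv⟩ ?_
      by_cases hadj : G.Adj v u
      · left
        intro a ha b hb hba
        rw [hall b hb hba, Finset.mem_singleton.1 ha]; exact hadj
      · right
        intro a ha b hb hba
        rw [hall b hb hba, Finset.mem_singleton.1 ha]; exact hadj
    · obtain ⟨A, B, hA, hB, hdis, hAB, hor⟩ := ih (U.erase v) hU' (by omega)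
      have hvA : v ∉ A := fun h => by
        have : v ∈ U.erase v := hAB ▸ Finset.mem_union_left _ h
        simp at this
      have hvB : v ∉ B := fun h => by
        have : v ∈ U.erase v := hAB ▸ Finset.mem_union_right _ h
        simp at this
      have hmem : ∀ u, u ∈ U ↔ u = v ∨ u ∈ A ∨ u ∈ B := by
        intro u
        rw [← hins, Finset.mem_insert, ← hAB, Finset.mem_union]
      have hAU : A ⊆ U := fun u hu => (hmem u).2 (Or.inr (Or.inl hu))
      have hBU : B ⊆ U := fun u hu => (hmem u).2 (Or.inr (Or.inr hu))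
      have hnAB : ∀ u ∈ A, u ∉ B := fun u h1 h2 => Finset.disjoint_left.1 hdis h1 h2
      have hnBA : ∀ u ∈ B, u ∉ A := fun u h1 h2 => Finset.disjoint_left.1 hdis h2 h1
      rcases hor with hor | hor
      · -- all edges between `A` and `B`
        by_cases h1 : ∀ a ∈ A, G.Adj v a
        · refine fin A hAU hA ⟨v, hv, hvA⟩ (Or.inl ?_)
          intro a ha b hb hbA
          rcases (hmem b).1 hb with rfl | hb | hb
          · exact (h1 a ha).symm
          · exact absurd hb hbA
          · exact hor a ha b hb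
        by_cases h2 : ∀ b ∈ B, G.Adj v b
        · refine fin B hBU hB ⟨v, hv, hvB⟩ (Or.inl ?_)
          intro a ha b hb hbA
          rcases (hmem b).1 hb with rfl | hb | hb
          · exact (h2 a ha).symm
          · exact (hor b hb a ha).symm
          · exact absurd hb hbA
        push Not at h1 h2
        obtain ⟨a0, ha0, ha0'⟩ := h1
        obtain ⟨b0, hb0, hb0'⟩ := h2
        by_cases h3 : ∃ u ∈ A, G.Adj v u
        · obtain ⟨a1, ha1, ha1'⟩ := h3
          refine fin (A.filter (G.Adj v)) ((Finset.filter_subset _ _).trans hAU)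
            ⟨a1, Finset.mem_filter.2 ⟨ha1, ha1'⟩⟩ ⟨v, hv, fun h => hvA (Finset.mem_filter.1 h).1⟩
            (Or.inl ?_)
          intro w hw b hb hbn
          obtain ⟨hwA, hwv⟩ := Finset.mem_filter.1 hw
          rcases (hmem b).1 hb with rfl | hb | hb
          · exact hwv.symm
          · by_contra hcon
            have hbv : ¬ G.Adj v b := fun h => hbn (Finset.mem_filter.2 ⟨hb, h⟩)
            exact hP v w b0 b hwv (hor w hwA b0 hb0) (hor b hb b0 hb0).symm hb0' hcon hbv
          · exact hor w hwA b hb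
        by_cases h4 : ∃ u ∈ B, G.Adj v u
        · obtain ⟨b1, hb1, hb1'⟩ := h4
          refine fin (B.filter (G.Adj v)) ((Finset.filter_subset _ _).trans hBU)
            ⟨b1, Finset.mem_filter.2 ⟨hb1, hb1'⟩⟩ ⟨v, hv, fun h => hvB (Finset.mem_filter.1 h).1⟩
            (Or.inl ?_)
          intro w hw b hb hbn
          obtain ⟨hwB, hwv⟩ := Finset.mem_filter.1 hw
          rcases (hmem b).1 hb with rfl | hb | hb
          · exact hwv.symm
          · exact (hor b hb w hwB).symm
          · by_contra hcon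
            have hbv : ¬ G.Adj v b := fun h => hbn (Finset.mem_filter.2 ⟨hb, h⟩)
            exact hP v w a0 b hwv (hor a0 ha0 w hwB).symm (hor a0 ha0 b hb) ha0' hcon hbv
        push Not at h3 h4
        refine fin {v} (by simpa using hv) (by simp) ⟨a0, hAU ha0, ?_⟩ (Or.inr ?_)
        · simp only [Finset.mem_singleton]; rintro rfl; exact hvA ha0
        · intro a ha b hb hbv
          rw [Finset.mem_singleton.1 ha]
          rcases (hmem b).1 hb with rfl | hb | hb
          · simp at hbv
          · exact h3 b hb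
          · exact h4 b hb
      · -- no edges between `A` and `B`
        by_cases h1 : ∀ a ∈ A, ¬ G.Adj v a
        · refine fin A hAU hA ⟨v, hv, hvA⟩ (Or.inr ?_)
          intro a ha b hb hbA
          rcases (hmem b).1 hb with rfl | hb | hb
          · exact fun h => h1 a ha h.symm
          · exact absurd hb hbA
          · exact hor a ha b hb
        by_cases h2 : ∀ b ∈ B, ¬ G.Adj v b
        · refine fin B hBU hB ⟨v, hv, hvB⟩ (Or.inr ?_)
          intro a ha b hb hbA
          rcases (hmem b).1 hb with rfl | hb | hb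
          · exact fun h => h2 a ha h.symm
          · exact fun h => hor b hb a ha h.symm
          · exact absurd hb hbA
        push Not at h1 h2
        obtain ⟨a0, ha0, ha0'⟩ := h1
        obtain ⟨b0, hb0, hb0'⟩ := h2
        by_cases h3 : ∃ u ∈ A, ¬ G.Adj v u
        · obtain ⟨a1, ha1, ha1'⟩ := h3
          refine fin (A.filter (fun u => ¬ G.Adj v u)) ((Finset.filter_subset _ _).trans hAU)
            ⟨a1, Finset.mem_filter.2 ⟨ha1, ha1'⟩⟩ ⟨v, hv, fun h => hvA (Finset.mem_filter.1 h).1⟩
            (Or.inr ?_)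
          intro w hw b hb hbn hcon
          obtain ⟨hwA, hwv⟩ := Finset.mem_filter.1 hw
          rcases (hmem b).1 hb with rfl | hb | hb
          · exact hwv hcon.symm
          · have hbv : G.Adj v b := by
              by_contra h
              exact hbn (Finset.mem_filter.2 ⟨hb, h⟩)
            exact hP w b v b0 hcon hbv.symm hb0' (fun h => hwv h.symm) (hor b hb b0 hb0)
              (hor w hwA b0 hb0)
          · exact hor w hwA b hb hcon
        by_cases h4 : ∃ u ∈ B, ¬ G.Adj v u
        · obtain ⟨b1, hb1, hb1'⟩ := h4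
          refine fin (B.filter (fun u => ¬ G.Adj v u)) ((Finset.filter_subset _ _).trans hBU)
            ⟨b1, Finset.mem_filter.2 ⟨hb1, hb1'⟩⟩ ⟨v, hv, fun h => hvB (Finset.mem_filter.1 h).1⟩
            (Or.inr ?_)
          intro w hw b hb hbn hcon
          obtain ⟨hwB, hwv⟩ := Finset.mem_filter.1 hw
          rcases (hmem b).1 hb with rfl | hb | hb
          · exact hwv hcon.symm
          · exact hor b hb w hwB hcon.symm
          · have hbv : G.Adj v b := by
              by_contra h
              exact hbn (Finset.mem_filter.2 ⟨hb, h⟩)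
            exact hP w b v a0 hcon hbv.symm ha0' (fun h => hwv h.symm)
              (fun h => hor a0 ha0 b hb h.symm) (fun h => hor a0 ha0 w hwB h.symm)
        push Not at h3 h4
        refine fin {v} (by simpa using hv) (by simp) ⟨a0, hAU ha0, ?_⟩ (Or.inl ?_)
        · simp only [Finset.mem_singleton]; rintro rfl; exact hvA ha0
        · intro a ha b hb hbv
          rw [Finset.mem_singleton.1 ha]
          rcases (hmem b).1 hb with rfl | hb | hb
          · simp at hbv
          · exact h3 b hb
          · exact h4 b hb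

/-- the lower bound -/
theorem lower (hP : ∀ a b c d, G.Adj a b → G.Adj b c → G.Adj c d → ¬ G.Adj a c → ¬ G.Adj b d →
    ¬ G.Adj a d → False) (n : ℕ) : ∀ U : Finset V, U.card = n → (∀ u ∈ U, ∃ w ∈ U, G.Adj u w) →
    ∃ S ⊆ U, (∀ v ∈ S, Odd (dg G S v)) ∧ U.card ≤ 3 * S.card := by
  induction n using Nat.strong_induction_on with
  | _ n ih =>
    intro U hU hnb
    rcases Finset.eq_empty_or_nonempty U with rfl | ⟨u, hu⟩
    · exact ⟨∅, subset_rfl, by simp, by simp⟩
    obtain ⟨w, hw, huw⟩ := hnb u hu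
    have h2 : 2 ≤ n := by
      rw [← hU]
      exact Finset.one_lt_card.2 ⟨u, hu, w, hw, G.ne_of_adj huw⟩
    obtain ⟨A, B, hA, hB, hdis, hAB, hor⟩ := split G hP n U hU h2
    rcases hor with hor | hor
    · obtain ⟨S, h1, h2, h3⟩ := join_case G hA hB hdis hor
      rw [hAB] at h1 h3
      exact ⟨S, h1, h2, h3⟩
    · have hcard : A.card + B.card = U.card := by
        rw [← hAB, Finset.card_union_of_disjoint hdis]
      have hAp := hA.card_pos
      have hBp := hB.card_pos
      obtain ⟨S, hSA, hSo, hSc⟩ := ih A.card (by omega) A rfl (by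
        intro a ha
        obtain ⟨x, hx, hax⟩ := hnb a (by rw [← hAB]; exact Finset.mem_union_left _ ha)
        rw [← hAB] at hx
        rcases Finset.mem_union.1 hx with hx | hx
        · exact ⟨x, hx, hax⟩
        · exact absurd hax (hor a ha x hx))
      obtain ⟨T, hTB, hTo, hTc⟩ := ih B.card (by omega) B rfl (by
        intro b hb
        obtain ⟨x, hx, hbx⟩ := hnb b (by rw [← hAB]; exact Finset.mem_union_right _ hb)
        rw [← hAB] at hx
        rcases Finset.mem_union.1 hx with hx | hx
        · exact absurd hbx.symm (hor x hx b hb)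
        · exact ⟨x, hx, hbx⟩)
      have hST : Disjoint S T := Finset.disjoint_of_subset_left hSA
        (Finset.disjoint_of_subset_right hTB hdis)
      refine ⟨S ∪ T, by rw [← hAB]; exact Finset.union_subset_union hSA hTB, ?_, ?_⟩
      · have hdg : ∀ X Y : Finset V, ∀ v ∈ X, (∀ y ∈ Y, ¬ G.Adj v y) →
            dg G (X ∪ Y) v = dg G X v := by
          intro X Y v hv hj
          unfold dg
          rw [Finset.filter_union, Finset.filter_false_of_mem hj, Finset.union_empty]
        intro v hv
        rcases Finset.mem_union.1 hv with hv | hv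
        · rw [hdg S T v hv (fun y hy => hor v (hSA hv) y (hTB hy))]
          exact hSo v hv
        · rw [Finset.union_comm, hdg T S v hv
            (fun y hy h => hor y (hSA hy) v (hTB hv) h.symm)]
          exact hTo v hv
      · rw [Finset.card_union_of_disjoint hST]
        omega

end Graph

/-- the extremal graph: `k` blocks, each complete multipartite with at most three parts of size at
most two -/
def Gx (n k : ℕ) : SimpleGraph (Fin n) where
  Adj i j := i.1 % k = j.1 % k ∧ (i.1 / k) % 3 ≠ (j.1 / k) % 3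
  symm := ⟨fun _ _ h => ⟨h.1.symm, h.2.symm⟩⟩
  loopless := ⟨fun _ h => h.2 rfl⟩

theorem Gx_cograph (n k : ℕ) : IsCograph (Gx n k) := by
  refine ⟨fun f => ?_⟩
  have h : ∀ i j : Fin 4, (Gx n k).Adj (f i) (f j) ↔ (i.1 + 1 = j.1 ∨ j.1 + 1 = i.1) := by
    intro i j
    rw [f.map_rel_iff, SimpleGraph.pathGraph_adj]
  have h01 := (h 0 1).2 (by decide)
  have h12 := (h 1 2).2 (by decide)
  have h23 := (h 2 3).2 (by decide)
  have h02 : ¬ (Gx n k).Adj (f 0) (f 2) := fun hh => absurd ((h 0 2).1 hh) (by decide)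
  have h03 : ¬ (Gx n k).Adj (f 0) (f 3) := fun hh => absurd ((h 0 3).1 hh) (by decide)
  simp only [Gx] at h01 h12 h23 h02 h03
  have e1 : (f 0).1 % k = (f 2).1 % k := h01.1.trans h12.1
  have e2 : (f 0).1 % k = (f 3).1 % k := e1.trans h23.1
  have e3 : (f 0).1 / k % 3 = (f 2).1 / k % 3 := by
    by_contra hc
    exact h02 ⟨e1, hc⟩
  have e4 : (f 0).1 / k % 3 = (f 3).1 / k % 3 := by
    by_contra hc
    exact h03 ⟨e2, hc⟩
  exact h23.2 (e3.symm.trans e4)

theorem Gx_noniso {n k : ℕ} (hk : 0 < k) (hn : 2 * k ≤ n) (v : Fin n) : ∃ u, (Gx n k).Adj v u := by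
  have hr : v.1 % k < k := Nat.mod_lt _ hk
  by_cases h : v.1 / k % 3 = 0
  · refine ⟨⟨v.1 % k + k * 1, by omega⟩, ?_, ?_⟩
    · show v.1 % k = (v.1 % k + k * 1) % k
      rw [Nat.add_mul_mod_self_left, Nat.mod_mod]
    · show v.1 / k % 3 ≠ (v.1 % k + k * 1) / k % 3
      rw [Nat.add_mul_div_left _ _ hk, Nat.div_eq_of_lt hr, h]
      decide
  · refine ⟨⟨v.1 % k, by omega⟩, ?_, ?_⟩
    · show v.1 % k = v.1 % k % k
      rw [Nat.mod_mod]
    · show v.1 / k % 3 ≠ v.1 % k / k % 3
      rw [Nat.div_eq_of_lt hr]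
      exact h

theorem Gx_upper {n k : ℕ} (hk : 0 < k) (hn : n ≤ 6 * k) [DecidableRel (Gx n k).Adj]
    (T : Finset (Fin n)) (hT : ∀ v ∈ T, Odd (dg (Gx n k) T v)) : T.card ≤ 2 * k := by
  have hblock : ∀ b ∈ Finset.range k, (T.filter (fun i => i.1 % k = b)).card ≤ 2 := by
    intro b hb
    set Tb := T.filter (fun i => i.1 % k = b) with hTb
    have hpart : ∀ p, p < 3 → (Tb.filter (fun i => i.1 / k % 3 = p)).card ≤ 2 := by
      intro p hp
      have : (Tb.filter (fun i => i.1 / k % 3 = p)).card ≤ ({p, p + 3} : Finset ℕ).card := by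
        refine Finset.card_le_card_of_injOn (fun i => i.1 / k) ?_ ?_
        · intro i hi
          have hi' := (Finset.mem_filter.1 hi).2
          have : i.1 / k < 6 := by
            rw [Nat.div_lt_iff_lt_mul hk]
            have := i.2
            omega
          simp only [Finset.coe_insert, Finset.coe_singleton, Set.mem_insert_iff,
            Set.mem_singleton_iff]
          generalize i.1 / k = q at *
          omega
        · intro i hi j hj hij
          have hi' := (Finset.mem_filter.1 (Finset.mem_filter.1 hi).1).2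
          have hj' := (Finset.mem_filter.1 (Finset.mem_filter.1 hj).1).2
          simp only at hij
          apply Fin.ext
          rw [← Nat.div_add_mod i.1 k, ← Nat.div_add_mod j.1 k, hij, hi', hj']
      exact this.trans Finset.card_le_two
    have hsum : Tb.card = (Tb.filter (fun i => i.1 / k % 3 = 0)).card +
        (Tb.filter (fun i => i.1 / k % 3 = 1)).card + (Tb.filter (fun i => i.1 / k % 3 = 2)).card := by
      rw [Finset.card_eq_sum_card_fiberwise (f := fun i : Fin n => i.1 / k % 3)
        (t := Finset.range 3) (fun i _ => by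
          simp only [Finset.coe_range, Set.mem_Iio]
          exact Nat.mod_lt _ (by norm_num))]
      simp [Finset.sum_range_succ]
    have hodd : ∀ p, p < 3 → 0 < (Tb.filter (fun i => i.1 / k % 3 = p)).card →
        Odd (Tb.card - (Tb.filter (fun i => i.1 / k % 3 = p)).card) := by
      intro p hp hpos
      obtain ⟨v, hv⟩ := Finset.card_pos.1 hpos
      obtain ⟨hv1, hv2⟩ := Finset.mem_filter.1 hv
      obtain ⟨hv3, hv4⟩ := Finset.mem_filter.1 hv1
      have := hT v hv3
      have e : dg (Gx n k) T v = Tb.card - (Tb.filter (fun i => i.1 / k % 3 = p)).card := by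
        rw [← Finset.card_sdiff_of_subset (Finset.filter_subset _ _)]
        unfold dg
        congr 1
        apply Finset.ext
        intro u
        rw [Finset.mem_filter, Finset.mem_sdiff, hTb, Finset.mem_filter, Finset.mem_filter,
          Finset.mem_filter]
        constructor
        · rintro ⟨h1, h2, h3⟩
          refine ⟨⟨h1, by rw [← h2, hv4]⟩, fun h => h3 ?_⟩
          rw [hv2, h.2]
        · rintro ⟨⟨h1, h2⟩, h3⟩
          refine ⟨h1, by rw [h2, hv4], fun h => h3 ⟨⟨h1, h2⟩, ?_⟩⟩
          rw [← h, hv2]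
      rw [← e]; exact this
    have p0 := hpart 0 (by norm_num)
    have p1 := hpart 1 (by norm_num)
    have p2 := hpart 2 (by norm_num)
    have o0 := hodd 0 (by norm_num)
    have o1 := hodd 1 (by norm_num)
    have o2 := hodd 2 (by norm_num)
    rw [hsum] at o0 o1 o2 ⊢
    generalize (Tb.filter (fun i => i.1 / k % 3 = 0)).card = t0 at *
    generalize (Tb.filter (fun i => i.1 / k % 3 = 1)).card = t1 at *
    generalize (Tb.filter (fun i => i.1 / k % 3 = 2)).card = t2 at *
    simp only [Nat.odd_iff] at o0 o1 o2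
    omega
  rw [Finset.card_eq_sum_card_fiberwise (f := fun i : Fin n => i.1 % k) (t := Finset.range k)
    (fun i _ => by
      simp only [Finset.coe_range, Set.mem_Iio]
      exact Nat.mod_lt _ hk)]
  calc _ ≤ ∑ b ∈ Finset.range k, 2 := Finset.sum_le_sum hblock
    _ = 2 * k := by simp [mul_comm]

section Final

theorem noP4 {V : Type} {G : SimpleGraph V} (h : IsCograph G) (a b c d : V) (h1 : G.Adj a b)
    (h2 : G.Adj b c) (h3 : G.Adj c d) (h4 : ¬ G.Adj a c) (h5 : ¬ G.Adj b d) (h6 : ¬ G.Adj a d) :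
    False := by
  have nab := G.ne_of_adj h1
  have nbc := G.ne_of_adj h2
  have ncd := G.ne_of_adj h3
  have nac : a ≠ c := by rintro rfl; exact h6 h3
  have nbd : b ≠ d := by rintro rfl; exact h6 h1
  have nad : a ≠ d := by rintro rfl; exact h5 h1.symm
  refine h.false ⟨⟨![a, b, c, d], ?_⟩, ?_⟩
  · intro i j hij
    fin_cases i <;> fin_cases j <;> simp_all
  · intro i j
    rw [SimpleGraph.pathGraph_adj]
    show G.Adj (![a, b, c, d] i) (![a, b, c, d] j) ↔ _
    have h1' := h1.symm
    have h2' := h2.symm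
    have h3' := h3.symm
    have h4' : ¬ G.Adj c a := fun h => h4 h.symm
    have h5' : ¬ G.Adj d b := fun h => h5 h.symm
    have h6' : ¬ G.Adj d a := fun h => h6 h.symm
    fin_cases i <;> fin_cases j <;>
      simp [h1, h2, h3, h4, h5, h6, h1', h2', h3', h4', h5', h6']

open Classical in
theorem oddSet_iff {V : Type} [Fintype V] (G : SimpleGraph V) (S : Set V) :
    IsOddSet G S ↔ ∀ v ∈ S.toFinset, Odd (dg G S.toFinset v) := by
  have : ∀ v, {u | u ∈ S ∧ G.Adj v u}.ncard = dg G S.toFinset v := by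
    intro v
    unfold dg
    rw [Set.ncard_eq_toFinset_card']
    congr 1
    ext u
    simp
  unfold IsOddSet
  simp only [this, Set.mem_toFinset]

theorem mos_bdd {V : Type} [Fintype V] (G : SimpleGraph V) :
    BddAbove {k | ∃ S : Set V, IsOddSet G S ∧ S.ncard = k} := by
  refine ⟨Fintype.card V, ?_⟩
  rintro k ⟨S, -, rfl⟩
  rw [← Nat.card_eq_fintype_card]
  exact Set.ncard_le_card S

open Classical in
theorem mos_lower {n : ℕ} (G : SimpleGraph (Fin n)) (hG : IsCograph G) (hi : ∀ v, ∃ u, G.Adj v u) :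
    2 * ((n + 5) / 6) ≤ mos G := by
  obtain ⟨S, -, hS, hc⟩ := lower G (noP4 hG) n Finset.univ (by simp) (fun u _ => by
    obtain ⟨w, hw⟩ := hi u
    exact ⟨w, Finset.mem_univ _, hw⟩)
  have hev := even_of_odd G S hS
  rw [Finset.card_univ, Fintype.card_fin] at hc
  have h1 : 2 * ((n + 5) / 6) ≤ S.card := by
    obtain ⟨t, ht⟩ := hev
    omega
  refine h1.trans (le_csSup (mos_bdd G) ⟨(S : Set (Fin n)), ?_, Set.ncard_coe_finset S⟩)
  rw [oddSet_iff]
  simpa using hS

open Classical in
theorem mos_Gx {n : ℕ} (hn : 2 ≤ n) : mos (Gx n ((n + 5) / 6)) ≤ 2 * ((n + 5) / 6) := by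
  refine csSup_le ⟨0, ∅, ?_, by simp⟩ ?_
  · intro v hv
    exact absurd hv (Set.notMem_empty v)
  · rintro k ⟨S, hS, rfl⟩
    rw [oddSet_iff] at hS
    rw [Set.ncard_eq_toFinset_card']
    exact Gx_upper (by omega) (by omega) S.toFinset hS

theorem ceil_eq (n : ℕ) : ⌈(n : ℚ) / 6⌉₊ = (n + 5) / 6 := by
  apply le_antisymm
  · rw [Nat.ceil_le, div_le_iff₀ (by norm_num)]
    have : n ≤ (n + 5) / 6 * 6 := by omega
    exact_mod_cast this
  · have h := Nat.le_ceil ((n : ℚ) / 6)
    rw [div_le_iff₀ (by norm_num)] at h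
    have h' : n ≤ ⌈(n : ℚ) / 6⌉₊ * 6 := by exact_mod_cast h
    omega

end Final

/-- The smallest possible order `m(n)` of a largest odd induced subgraph of a cograph on `n ≥ 2`
vertices without isolated vertices is `2⌈n/6⌉`. -/
theorem result : ∀ n : ℕ, 2 ≤ n → m n = 2 * ⌈(n : ℚ) / 6⌉₊ := by
  intro n hn
  rw [ceil_eq]
  have hmem : mos (Gx n ((n + 5) / 6)) ∈ {k | ∃ G : SimpleGraph (Fin n), IsCograph G ∧
      (∀ v, ∃ u, G.Adj v u) ∧ mos G = k} :=
    ⟨Gx n ((n + 5) / 6), Gx_cograph _ _, Gx_noniso (by omega) (by omega), rfl⟩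
  apply le_antisymm
  · exact (Nat.sInf_le hmem).trans (mos_Gx hn)
  · refine le_csInf ⟨_, hmem⟩ ?_
    rintro k ⟨G, hG, hi, rfl⟩
    exact mos_lower G hG hi

end Pool.Agent.Results.MP_007251_co.MosCographs
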